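import Pool.Agent.Helper67.NX2.Defs
import Pool.Agent.Helper5.NX.Basic
import Pool.Agent.Helper64.NX.Blocks

/-!
# Project NX2, A23, auxiliary lemmas: dilated block functions
-/

set_option autoImplicit false

open Finset
open scoped BigOperators ComplexConjugate

namespace Pool.Agent.Helper67.NX2

open Pool.Agent.Helper57.NX

noncomputable section

section Sums52

lemma sum_zmod_range52 {N : ℕ} [NeZero N] {M : Type} [AddCommMonoid M] (g : ZMod N → M) :
    ∑ x : ZMod N, g x = ∑ n ∈ range N, g (n : ZMod N) := by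
  refine sum_bij' (i := fun x _ => x.val) (j := fun j _ => (j : ZMod N)) ?_ ?_ ?_ ?_ ?_
  · intro x _
    exact mem_range.2 (ZMod.val_lt x)
  · intro j _
    exact mem_univ _
  · intro x _
    exact ZMod.natCast_zmod_val x
  · intro j hj
    exact ZMod.val_natCast_of_lt (mem_range.1 hj)
  · intro x _
    rw [ZMod.natCast_zmod_val]

lemma sum_div_range52 (M K : ℕ) (hM : 1 ≤ M) (w : ℕ → ℝ) :
    ∑ n ∈ range (M * K), w (n / M) = M * ∑ g ∈ range K, w g := by
  induction K with
  | zero => simp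
  | succ K ih =>
    rw [Nat.mul_succ, sum_range_add, ih, sum_range_succ, mul_add]
    congr 1
    have h : ∀ i ∈ range M, w ((M * K + i) / M) = w K := by
      intro i hi
      rw [Nat.mul_add_div (by omega), Nat.div_eq_of_lt (mem_range.1 hi), add_zero]
    rw [sum_congr rfl h, sum_const, card_range, nsmul_eq_mul]

lemma blocksum52 (F : ℕ → ℂ) (M n : ℕ) (l : ℕ) :
    ∑ j ∈ range l, ‖F ((n + j + 1) / M) - F ((n + j) / M)‖ =
      ∑ i ∈ range ((n + l) / M - n / M), ‖F (n / M + i + 1) - F (n / M + i)‖ := by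
  induction l with
  | zero => simp
  | succ l ih =>
    rw [sum_range_succ, ih]
    have hmono : n / M ≤ (n + l) / M := Nat.div_le_div_right (by omega)
    have hs := Nat.succ_div (a := n + l) (b := M)
    by_cases hd : M ∣ n + l + 1
    · rw [if_pos hd] at hs
      have h1 : (n + (l + 1)) / M - n / M = (n + l) / M - n / M + 1 := by
        rw [show n + (l + 1) = n + l + 1 by ring, hs]
        omega
      rw [h1, sum_range_succ]
      congr 1
      have h2 : n / M + ((n + l) / M - n / M) = (n + l) / M := by omega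
      rw [h2, hs]
    · rw [if_neg hd, add_zero] at hs
      rw [show n + (l + 1) = n + l + 1 by ring, hs, sub_self, norm_zero, add_zero]

end Sums52

section Tv52
variable {N : ℕ} [NeZero N]

/-- variation of a function of `x.val`, windows may contain the jump of the circle -/
lemma sum_wrap52 (φ : ℕ → ℂ) (hφ : ∀ n, ‖φ n‖ ≤ 1) (V : ℝ) (W : ℕ) (hW : W ≤ N)
    (h : ∀ n l, n + l < N → l ≤ W → ∑ j ∈ range l, ‖φ (n + j + 1) - φ (n + j)‖ ≤ V) (x : ZMod N) :
    ∑ j ∈ range W, ‖φ ((x + (j : ZMod N) + 1).val) - φ ((x + (j : ZMod N)).val)‖ ≤ 2 * V + 2 := by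
  have hN : 0 < N := Nat.pos_of_ne_zero (NeZero.ne N)
  have hV : 0 ≤ V := by
    have := h 0 0 (by omega) (by omega)
    simpa using this
  set n := x.val with hn
  have hnN : n < N := ZMod.val_lt x
  have hx : x = (n : ZMod N) := (ZMod.natCast_zmod_val x).symm
  rcases lt_or_ge (n + W) N with hlt | hge
  · have h1 : ∑ j ∈ range W, ‖φ ((x + (j : ZMod N) + 1).val) - φ ((x + (j : ZMod N)).val)‖ =
        ∑ j ∈ range W, ‖φ (n + j + 1) - φ (n + j)‖ := by
      refine sum_congr rfl fun j hj => ?_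
      have hj' := mem_range.1 hj
      have e1 : x + (j : ZMod N) = ((n + j : ℕ) : ZMod N) := by rw [hx]; push_cast; ring
      have e2 : x + (j : ZMod N) + 1 = ((n + j + 1 : ℕ) : ZMod N) := by rw [hx]; push_cast; ring
      rw [e2, e1, ZMod.val_natCast_of_lt (by omega), ZMod.val_natCast_of_lt (by omega)]
    rw [h1]
    have := h n W hlt le_rfl
    linarith
  · obtain ⟨l1, hl1⟩ : ∃ l1, n + l1 + 1 = N := ⟨N - 1 - n, by omega⟩
    obtain ⟨l2, hl2⟩ : ∃ l2, W = l1 + 1 + l2 := ⟨W - l1 - 1, by omega⟩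
    rw [hl2, sum_range_add, sum_range_succ]
    have h1 : ∑ j ∈ range l1, ‖φ ((x + (j : ZMod N) + 1).val) - φ ((x + (j : ZMod N)).val)‖ ≤ V := by
      have h2 : ∑ j ∈ range l1, ‖φ ((x + (j : ZMod N) + 1).val) - φ ((x + (j : ZMod N)).val)‖ =
          ∑ j ∈ range l1, ‖φ (n + j + 1) - φ (n + j)‖ := by
        refine sum_congr rfl fun j hj => ?_
        have hj' := mem_range.1 hj
        have e1 : x + (j : ZMod N) = ((n + j : ℕ) : ZMod N) := by rw [hx]; push_cast; ring
        have e2 : x + (j : ZMod N) + 1 = ((n + j + 1 : ℕ) : ZMod N) := by rw [hx]; push_cast; ring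
        rw [e2, e1, ZMod.val_natCast_of_lt (by omega), ZMod.val_natCast_of_lt (by omega)]
      rw [h2]
      exact h n l1 (by omega) (by omega)
    have h2 : ‖φ ((x + (l1 : ZMod N) + 1).val) - φ ((x + (l1 : ZMod N)).val)‖ ≤ 2 := by
      refine (norm_sub_le _ _).trans ?_
      have := hφ ((x + (l1 : ZMod N) + 1).val)
      have := hφ ((x + (l1 : ZMod N)).val)
      linarith
    have h3 : ∑ j ∈ range l2, ‖φ ((x + ((l1 + 1 + j : ℕ) : ZMod N) + 1).val) -
        φ ((x + ((l1 + 1 + j : ℕ) : ZMod N)).val)‖ ≤ V := by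
      have h4 : ∑ j ∈ range l2, ‖φ ((x + ((l1 + 1 + j : ℕ) : ZMod N) + 1).val) -
          φ ((x + ((l1 + 1 + j : ℕ) : ZMod N)).val)‖ =
          ∑ j ∈ range l2, ‖φ (0 + j + 1) - φ (0 + j)‖ := by
        refine sum_congr rfl fun j hj => ?_
        have hj' := mem_range.1 hj
        have e0 : ((n + l1 + 1 : ℕ) : ZMod N) = 0 := by rw [hl1]; exact ZMod.natCast_self N
        have e1 : x + ((l1 + 1 + j : ℕ) : ZMod N) = ((0 + j : ℕ) : ZMod N) := by
          have : x + ((l1 + 1 + j : ℕ) : ZMod N) = ((n + l1 + 1 : ℕ) : ZMod N) + (j : ZMod N) := by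
            rw [hx]; push_cast; ring
          rw [this, e0, zero_add, zero_add]
        have e2 : x + ((l1 + 1 + j : ℕ) : ZMod N) + 1 = ((0 + j + 1 : ℕ) : ZMod N) := by
          rw [e1]; push_cast; ring
        rw [e2, e1, ZMod.val_natCast_of_lt (by omega), ZMod.val_natCast_of_lt (by omega)]
      rw [h4]
      exact h 0 l2 (by omega) (by omega)
    push_cast at h3 ⊢
    linarith

/-- the function `x ↦ g (x.val / M + β)` has small variation at scale `M Y` -/
lemma adm_dil52 {p : ℕ} [NeZero p] {B X : ℝ} {g : ZMod p → ℂ} (hg : Adm B X g) (M Y : ℕ)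
    (hM : 1 ≤ M) (hY : 1 ≤ Y) (hYX : (Y : ℝ) ≤ X) (hMY : M * Y ≤ N) (β : ZMod p) :
    Adm (6 * B + 2) ((M * Y : ℕ) : ℝ) (fun x : ZMod N => g (((x.val / M : ℕ) : ZMod p) + β)) := by
  have hB := hg.tv.nonneg
  have hY0 : (1 : ℝ) ≤ Y := by exact_mod_cast hY
  have hX0 : 0 < X := by linarith
  refine ⟨fun x => hg.bdd _, ?_⟩
  refine tv_of_window64 (Nat.mul_pos hM hY) fun x => ?_
  have key := sum_wrap52 (N := N) (fun n => g (((n / M : ℕ) : ZMod p) + β)) (fun n => hg.bdd _)
    (3 * B) (M * Y) hMY ?_ x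
  · refine key.trans (le_of_eq ?_)
    ring
  · intro n l _ hl
    have h1 := blocksum52 (fun i : ℕ => g ((i : ZMod p) + β)) M n l
    rw [h1]
    have h2 : (n + l) / M - n / M ≤ Y + 1 := by
      have e1 : (n + l) / M ≤ (n + M * Y) / M := Nat.div_le_div_right (by omega)
      rw [Nat.add_mul_div_left _ _ (by omega)] at e1
      omega
    have h3 : ∑ i ∈ range ((n + l) / M - n / M), ‖g (((n / M + i + 1 : ℕ) : ZMod p) + β) -
        g (((n / M + i : ℕ) : ZMod p) + β)‖ ≤
        ∑ i ∈ range (Y + 1), ‖g ((((n / M : ℕ) : ZMod p) + β) + (i : ZMod p) + 1) -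
          g ((((n / M : ℕ) : ZMod p) + β) + (i : ZMod p))‖ := by
      refine (sum_le_sum_of_subset_of_nonneg (range_mono h2) fun _ _ _ => norm_nonneg _).trans
        (le_of_eq (sum_congr rfl fun i _ => ?_))
      congr 3 <;> push_cast <;> ring
    refine h3.trans ((hg.tv _ _).trans ?_)
    rw [mul_comm 3 B]
    refine mul_le_mul_of_nonneg_left ?_ hB
    have h4 : ((Y + 1 : ℕ) : ℝ) / X ≤ 2 := by
      rw [div_le_iff₀ hX0]
      push_cast
      linarith
    linarith

/-- proportion of the points near the end of the circle -/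
lemma expect_end52 {p Q : ℕ} (hQ : 1 ≤ Q) (hN : N = Q * p) (Δ : ℕ) :
    𝔼 x : ZMod N, (if p ≤ x.val / Q + Δ then (2 : ℝ) else 0) ≤ 2 * (Δ / p) := by
  have hN0 : 0 < N := Nat.pos_of_ne_zero (NeZero.ne N)
  have hp0 : 0 < p := Nat.pos_of_ne_zero (by rintro rfl; omega)
  have hNr : (0 : ℝ) < N := by exact_mod_cast hN0
  have hpr : (0 : ℝ) < p := by exact_mod_cast hp0
  have hQr : (0 : ℝ) < Q := by exact_mod_cast hQ
  rw [Fintype.expect_eq_sum_div_card, ZMod.card, div_le_iff₀ hNr,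
    sum_zmod_range52 (fun x : ZMod N => if p ≤ x.val / Q + Δ then (2 : ℝ) else 0)]
  have h1 : ∀ n ∈ range N, (if p ≤ ((n : ZMod N)).val / Q + Δ then (2 : ℝ) else 0) =
      if p ≤ n / Q + Δ then (2 : ℝ) else 0 := by
    intro n hn
    rw [ZMod.val_natCast_of_lt (mem_range.1 hn)]
  rw [sum_congr rfl h1]
  have h2 := sum_div_range52 Q p hQ (fun g => if p ≤ g + Δ then (2 : ℝ) else 0)
  rw [hN, h2]
  have h3 : ∑ g ∈ range p, (if p ≤ g + Δ then (2 : ℝ) else 0) ≤ 2 * Δ := by
    rw [← sum_filter, sum_const, nsmul_eq_mul, mul_comm]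
    refine mul_le_mul_of_nonneg_left ?_ (by norm_num)
    have h4 : (range p).filter (fun g => p ≤ g + Δ) ⊆ Ico (p - Δ) p := by
      intro g hg
      rw [mem_filter, mem_range] at hg
      rw [mem_Ico]
      omega
    have h5 := card_le_card h4
    rw [Nat.card_Ico] at h5
    exact_mod_cast h5.trans (by omega)
  have h6 : (Q : ℝ) * ∑ g ∈ range p, (if p ≤ g + Δ then (2 : ℝ) else 0) ≤ Q * (2 * Δ) :=
    mul_le_mul_of_nonneg_left h3 hQr.le
  refine h6.trans (le_of_eq ?_)
  push_cast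
  field_simp

/-- averages of the dilated block function -/
lemma nrm_dil52 {p : ℕ} [NeZero p] {Q q : ℕ} (hQ : 1 ≤ Q) (hq : 1 ≤ q) (hN : N = Q * p)
    (g : ZMod p → ℂ) (hg : ∀ z, ‖g z‖ ≤ 1) (β : ZMod p) (L : ℕ) :
    𝔼 x : ZMod N, ‖𝔼 l ∈ range L,
      g ((((x + ((Q * q * l : ℕ) : ZMod N)).val / (Q * q) : ℕ) : ZMod p) + β)‖ ≤
      q * nrm (A L g) + (Q * q : ℝ) * L / N := by
  have hN0 : 0 < N := Nat.pos_of_ne_zero (NeZero.ne N)
  have hp0 : 0 < p := Nat.pos_of_ne_zero (NeZero.ne p)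
  have hNr : (0 : ℝ) < N := by exact_mod_cast hN0
  have hpr : (0 : ℝ) < p := by exact_mod_cast hp0
  have hQr : (0 : ℝ) < Q := by exact_mod_cast hQ
  have hM : 1 ≤ Q * q := Nat.mul_pos hQ hq
  set w : ℕ → ℝ := fun i => ‖A L g ((i : ZMod p) + β)‖ with hw
  have hw0 : ∀ i, 0 ≤ w i := fun i => norm_nonneg _
  rw [Fintype.expect_eq_sum_div_card, ZMod.card, div_le_iff₀ hNr,
    sum_zmod_range52 (fun x : ZMod N => ‖𝔼 l ∈ range L,
      g ((((x + ((Q * q * l : ℕ) : ZMod N)).val / (Q * q) : ℕ) : ZMod p) + β)‖)]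
  have h1 : ∀ n ∈ range N, ‖𝔼 l ∈ range L,
      g (((((n : ZMod N) + ((Q * q * l : ℕ) : ZMod N)).val / (Q * q) : ℕ) : ZMod p) + β)‖ ≤
      w (n / (Q * q)) + if N < n + Q * q * L then (1 : ℝ) else 0 := by
    intro n hn
    split_ifs with hc
    · have : ‖𝔼 l ∈ range L,
        g (((((n : ZMod N) + ((Q * q * l : ℕ) : ZMod N)).val / (Q * q) : ℕ) : ZMod p) + β)‖ ≤ 1 :=
        norm_expect_le_of5 _ _ (by norm_num) fun l _ => hg _
      have := hw0 (n / (Q * q))
      linarith
    · rw [add_zero]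
      refine le_of_eq ?_
      rw [hw]
      simp only [A]
      congr 1
      refine expect_congr rfl fun l hl => ?_
      have hl' := mem_range.1 hl
      have e1 : (n : ZMod N) + ((Q * q * l : ℕ) : ZMod N) = ((n + Q * q * l : ℕ) : ZMod N) := by
        push_cast; ring
      have e2 : n + Q * q * l < N := by
        have : Q * q * (l + 1) ≤ Q * q * L := Nat.mul_le_mul_left _ hl'
        rw [Nat.mul_succ] at this
        omega
      rw [e1, ZMod.val_natCast_of_lt e2, Nat.add_mul_div_left _ _ hM]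
      congr 1
      push_cast
      ring
  refine (sum_le_sum h1).trans ?_
  rw [sum_add_distrib]
  have h2 : ∑ n ∈ range N, w (n / (Q * q)) ≤ (q * nrm (A L g)) * N := by
    have e1 : N ≤ Q * q * p := by
      rw [hN, mul_right_comm]
      exact Nat.le_mul_of_pos_right _ hq
    refine (sum_le_sum_of_subset_of_nonneg (range_mono e1) fun _ _ _ => hw0 _).trans ?_
    rw [sum_div_range52 _ _ hM w]
    have e2 : ∑ i ∈ range p, w i = p * nrm (A L g) := by
      unfold nrm
      rw [Fintype.expect_eq_sum_div_card, ZMod.card, mul_div_cancel₀ _ hpr.ne']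
      have e3 := sum_zmod_range52 (N := p) (fun z => ‖A L g (z + β)‖)
      rw [← e3]
      exact Fintype.sum_equiv (Equiv.addRight β) _ _ fun z => rfl
    rw [e2, hN]
    push_cast
    exact le_of_eq (by ring)
  have h3 : ∑ n ∈ range N, (if N < n + Q * q * L then (1 : ℝ) else 0) ≤ (Q * q : ℝ) * L := by
    rw [← sum_filter, sum_const, nsmul_eq_mul, mul_one]
    have h4 : (range N).filter (fun n => N < n + Q * q * L) ⊆ Ico (N - Q * q * L) N := by
      intro g hg
      rw [mem_filter, mem_range] at hg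
      rw [mem_Ico]
      omega
    have h5 := card_le_card h4
    rw [Nat.card_Ico] at h5
    exact_mod_cast h5.trans (by omega)
  have h4 : (q * nrm (A L g) + (Q * q : ℝ) * L / N) * N = (q * nrm (A L g)) * N + (Q * q : ℝ) * L := by
    field_simp
  rw [h4]
  linarith

end Tv52

end

end Pool.Agent.Helper67.NX2
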