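import Pool.Agent.Helper87.NX2.Dil
import Pool.Agent.Helper40.NX2.IGBasic
import Pool.Agent.Helper55.NX2.AqBasic
import Pool.Agent.Helper52.NX2.ArTopAux

/-!
# Project NX2, A23: top functions which are smooth along progressions
-/

set_option autoImplicit false

open Finset
open scoped BigOperators ComplexConjugate

namespace Pool.Agent.Helper67.NX2

open Pool.Agent.Helper57.NX

noncomputable section

section Split52
variable {N : ℕ} [NeZero N]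

/-- the model of the top function on the class `b` modulo `q` -/
def T52 {p : ℕ} (Q q n0 b : ℕ) (G : ZMod p → ℂ) (y : ZMod N) : ℂ :=
  G ((q * ((y - ((Q * n0 : ℕ) : ZMod N)).val / (Q * q)) + b + n0 : ℕ) : ZMod p)

/-- the indicator of the class `b` modulo `q` of the block number -/
def ind52 (Q q b : ℕ) (x : ZMod N) : ℂ := if x.val / Q % q = b then 1 else 0

omit [NeZero N] in
lemma norm_ind52 (Q q b : ℕ) (x : ZMod N) : ‖ind52 Q q b x‖ ≤ 1 := by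
  unfold ind52
  split_ifs <;> simp

lemma adm_ind52 {Q : ℕ} (hQ : 1 ≤ Q) (hQN : Q ≤ N) (q b : ℕ) :
    Adm 4 Q (ind52 (N := N) Q q b) := by
  refine ⟨norm_ind52 Q q b, ?_⟩
  have h := tv_block64 (N := N) hQ hQN 0 (fun j => if j % q = b then (1 : ℂ) else 0)
    (fun j => by split_ifs <;> simp)
  simp only [sub_zero] at h
  exact h

/-- decomposition for one `k` -/
lemma split_one52 {p : ℕ} [NeZero p] {Q q : ℕ} (hQ : 1 ≤ Q) (hq : 1 ≤ q) (hN : N = Q * p)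
    (G : ZMod p → ℂ) (hG : ∀ z, ‖G z‖ ≤ 1) (f0 W : ZMod N → ℂ) (hf0 : ∀ x, ‖f0 x‖ ≤ 1)
    (hW : ∀ x, ‖W x‖ ≤ 1)
    (a : ℤ) (n0 Δk Δ : ℕ) (hΔ : Δk ≤ Δ) (hdvd : q ∣ Δk) (ha : a = (Q : ℤ) * (n0 + Δk : ℕ)) :
    ‖𝔼 x : ZMod N, f0 x * (W x * blk Q G (x + (a : ZMod N))) -
      ∑ b ∈ range q, 𝔼 x : ZMod N, (f0 x * ind52 Q q b x) *
        (W x * T52 Q q n0 b G (x + (a : ZMod N)))‖ ≤ 2 * (Δ / p) := by
  rw [← expect_sum_comm, ← expect_sub_distrib]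
  refine (norm_expect_le5 _ _).trans ?_
  refine le_trans (expect_le_expect fun x _ => ?_) (expect_end52 hQ hN Δ)
  have h1 : ∑ b ∈ range q, (f0 x * ind52 Q q b x) * (W x * T52 Q q n0 b G (x + (a : ZMod N))) =
      f0 x * (W x * T52 Q q n0 (x.val / Q % q) G (x + (a : ZMod N))) := by
    rw [sum_eq_single (x.val / Q % q)]
    · simp [ind52]
    · intro b _ hb
      simp [ind52, Ne.symm hb]
    · intro hb
      exact absurd (mem_range.2 (Nat.mod_lt _ hq)) hb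
  rw [h1, ← mul_sub, ← mul_sub, norm_mul, norm_mul]
  have h0 := hf0 x
  have hw := hW x
  have hn0 := norm_nonneg (f0 x)
  have hnw := norm_nonneg (W x)
  split_ifs with hc
  · have h2 : ‖blk Q G (x + (a : ZMod N)) - T52 Q q n0 (x.val / Q % q) G (x + (a : ZMod N))‖ ≤ 2 := by
      refine (norm_sub_le _ _).trans ?_
      have e1 : ‖blk Q G (x + (a : ZMod N))‖ ≤ 1 := hG _
      have e2 : ‖T52 Q q n0 (x.val / Q % q) G (x + (a : ZMod N))‖ ≤ 1 := hG _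
      linarith
    have h3 := norm_nonneg (blk Q G (x + (a : ZMod N)) -
      T52 Q q n0 (x.val / Q % q) G (x + (a : ZMod N)))
    calc _ ≤ 1 * (1 * ‖blk Q G (x + (a : ZMod N)) -
          T52 Q q n0 (x.val / Q % q) G (x + (a : ZMod N))‖) := by gcongr
      _ ≤ 2 := by linarith
  · have h2 : blk Q G (x + (a : ZMod N)) = T52 Q q n0 (x.val / Q % q) G (x + (a : ZMod N)) := by
      obtain ⟨t, ht⟩ := hdvd
      have e0 : x + (a : ZMod N) = x + (((Q : ℤ) * ((n0 + Δk : ℕ) : ℤ) : ℤ) : ZMod N) := by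
        rw [ha]
      have e1 : blk Q G (x + (a : ZMod N)) = G ((x.val / Q + Δk + n0 : ℕ) : ZMod p) := by
        rw [e0, blk_add hQ hN]
        have e4 : ((x.val / Q : ℕ) : ZMod p) + (((n0 + Δk : ℕ) : ℤ) : ZMod p) =
            ((x.val / Q + Δk + n0 : ℕ) : ZMod p) := by
          push_cast
          ring
        unfold blk
        rw [← e4]
      have hlt : x.val + Q * Δk < N := by
        have f1 : x.val < Q * (x.val / Q + 1) := Nat.lt_mul_div_succ _ hQ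
        have f2 : Q * (x.val / Q + 1 + Δk) ≤ Q * p := Nat.mul_le_mul_left _ (by omega)
        rw [Nat.mul_add] at f2
        omega
      have e2 : x + (a : ZMod N) - ((Q * n0 : ℕ) : ZMod N) = ((x.val + Q * Δk : ℕ) : ZMod N) := by
        rw [e0]
        conv_lhs => rw [← ZMod.natCast_zmod_val x]
        push_cast
        ring
      have e3 : (x.val + Q * Δk) / (Q * q) = x.val / Q / q + t := by
        rw [← Nat.div_div_eq_div_mul, Nat.add_mul_div_left _ _ hQ, ht, Nat.add_mul_div_left _ _ hq]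
      rw [e1]
      unfold T52
      rw [e2, ZMod.val_natCast_of_lt hlt, e3]
      congr 2
      have f3 := Nat.div_add_mod (x.val / Q) q
      rw [Nat.mul_add, ← ht]
      omega
    rw [h2, sub_self, norm_zero]
    simp

/-- decomposition of a window -/
lemma form_split52 {m p : ℕ} [NeZero p] (S : Sys (m + 1)) (c : Fin (m + 1) → ℝ) {q : ℕ}
    (hQ : 1 ≤ S.Q) (hq : 1 ≤ q) (hN : N = S.Q * p) (r0 u' J : ℕ) (hJ : 1 ≤ J)
    (hdil : ∀ (i : Fin (m + 1)) (k : ℕ), (dil S c q r0 u' J).a c i k = S.a c i (q * k + r0))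
    (f0 : ZMod N → ℂ) (f : Fin m → ZMod N → ℂ)
    (hf0 : ∀ x, ‖f0 x‖ ≤ 1) (hf : ∀ i x, ‖f i x‖ ≤ 1) (G : ZMod p → ℂ) (hG : ∀ z, ‖G z‖ ≤ 1)
    (n0 Δ : ℕ)
    (ha : ∀ j ∈ Ico u' (u' + J), ∃ Δk : ℕ, Δk ≤ Δ ∧ q ∣ Δk ∧
      S.a c (Fin.last m) (q * j + r0) = (S.Q : ℤ) * (n0 + Δk : ℕ)) :
    ‖𝔼 j ∈ Ico u' (u' + J), 𝔼 x : ZMod N, f0 x *
      ∏ i, (Fin.snoc (α := fun _ => ZMod N → ℂ) f (blk S.Q G)) i
        (x + (S.a c i (q * j + r0) : ZMod N))‖ ≤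
      ∑ b ∈ range q, ‖form (dil S c q r0 u' J) c 1 (fun x => f0 x * ind52 S.Q q b x)
        (Fin.snoc (α := fun _ => ZMod N → ℂ) f (T52 S.Q q n0 b G))‖ + 2 * (Δ / p) := by
  have hne : (Ico u' (u' + J)).Nonempty := nonempty_Ico.2 (by omega)
  have h1 : ∀ b, form (dil S c q r0 u' J) c 1 (fun x => f0 x * ind52 S.Q q b x)
      (Fin.snoc (α := fun _ => ZMod N → ℂ) f (T52 S.Q q n0 b G)) =
      𝔼 j ∈ Ico u' (u' + J), 𝔼 x : ZMod N, (f0 x * ind52 S.Q q b x) *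
        ((∏ i : Fin m, f i (x + (S.a c i.castSucc (q * j + r0) : ZMod N))) *
          T52 S.Q q n0 b G (x + (S.a c (Fin.last m) (q * j + r0) : ZMod N))) := by
    intro b
    unfold form
    refine expect_congr rfl fun j _ => ?_
    rw [Pi.one_apply, one_mul]
    refine expect_congr rfl fun x _ => ?_
    rw [Fin.prod_univ_castSucc]
    simp only [Fin.snoc_castSucc, Fin.snoc_last, hdil]
  have h2 : ∀ j x, ∏ i, (Fin.snoc (α := fun _ => ZMod N → ℂ) f (blk S.Q G)) i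
        (x + (S.a c i (q * j + r0) : ZMod N)) =
      (∏ i : Fin m, f i (x + (S.a c i.castSucc (q * j + r0) : ZMod N))) *
          blk S.Q G (x + (S.a c (Fin.last m) (q * j + r0) : ZMod N)) := by
    intro j x
    rw [Fin.prod_univ_castSucc]
    simp only [Fin.snoc_castSucc, Fin.snoc_last]
  simp only [h2]
  have hW : ∀ j x, ‖∏ i : Fin m, f i (x + (S.a c i.castSucc (q * j + r0) : ZMod N))‖ ≤ 1 := by
    intro j x
    rw [norm_prod]
    exact prod_le_one (fun _ _ => norm_nonneg _) fun i _ => hf i _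
  set F : ℕ → ℂ := fun j => 𝔼 x : ZMod N, f0 x *
      ((∏ i : Fin m, f i (x + (S.a c i.castSucc (q * j + r0) : ZMod N))) *
          blk S.Q G (x + (S.a c (Fin.last m) (q * j + r0) : ZMod N))) with hF
  set F' : ℕ → ℕ → ℂ := fun b j => 𝔼 x : ZMod N, (f0 x * ind52 S.Q q b x) *
        ((∏ i : Fin m, f i (x + (S.a c i.castSucc (q * j + r0) : ZMod N))) *
          T52 S.Q q n0 b G (x + (S.a c (Fin.last m) (q * j + r0) : ZMod N))) with hF'
  have h3 : ∀ j ∈ Ico u' (u' + J), ‖F j - ∑ b ∈ range q, F' b j‖ ≤ 2 * (Δ / p) := by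
    intro j hj
    obtain ⟨Δk, hΔk, hdvd, hak⟩ := ha j hj
    exact split_one52 hQ hq hN G hG f0 _ hf0 (hW j) _ n0 Δk Δ hΔk hdvd hak
  have h4 : ‖𝔼 j ∈ Ico u' (u' + J), (F j - ∑ b ∈ range q, F' b j)‖ ≤ 2 * (Δ / p) :=
    norm_expect_le_of5 _ _ (by positivity) h3
  rw [expect_sub_distrib] at h4
  have h5 : 𝔼 j ∈ Ico u' (u' + J), F j = (𝔼 j ∈ Ico u' (u' + J), F j -
      𝔼 j ∈ Ico u' (u' + J), ∑ b ∈ range q, F' b j) +
      𝔼 j ∈ Ico u' (u' + J), ∑ b ∈ range q, F' b j := by ring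
  rw [h5]
  refine (norm_add_le _ _).trans ?_
  rw [add_comm]
  refine add_le_add ?_ h4
  rw [expect_sum_comm]
  refine (norm_sum_le _ _).trans (le_of_eq (sum_congr rfl fun b _ => ?_))
  rw [h1 b]

end Split52

lemma pow_sub_le52 (a b : ℝ) (hb : 0 ≤ b) (hab : b ≤ a) (d : ℕ) :
    a ^ (d + 1) - b ^ (d + 1) ≤ (d + 1) * a ^ d * (a - b) := by
  have ha : 0 ≤ a := hb.trans hab
  induction d with
  | zero => simp
  | succ d ih =>
    have h1 : a ^ (d + 1 + 1) - b ^ (d + 1 + 1) =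
        a ^ (d + 1) * (a - b) + b * (a ^ (d + 1) - b ^ (d + 1)) := by ring
    have h2 : b * (a ^ (d + 1) - b ^ (d + 1)) ≤ a * ((d + 1) * a ^ d * (a - b)) := by
      have h3 : 0 ≤ a ^ (d + 1) - b ^ (d + 1) := sub_nonneg.2 (pow_le_pow_left₀ hb hab _)
      calc b * (a ^ (d + 1) - b ^ (d + 1)) ≤ a * (a ^ (d + 1) - b ^ (d + 1)) :=
            mul_le_mul_of_nonneg_right hab h3
        _ ≤ _ := mul_le_mul_of_nonneg_left ih ha
    rw [h1]
    push_cast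
    have h4 : a * ((d + 1) * a ^ d * (a - b)) = (d + 1) * a ^ (d + 1) * (a - b) := by ring
    linarith

theorem ar_top (m : ℕ) (c : Fin (m + 1) → ℝ) (hc : Ex c) (d : ℕ) (hd : c (Fin.last m) = d)
    (s : ℝ) (hs0 : 0 < s) (hs : s < d) (hT : ∀ ε : ℝ, 0 < ε → TopPm m c s ε) :
    ∀ ε : ℝ, 0 < ε → ∃ x0 : ℝ, 0 < x0 ∧ ∃ C : ℕ, ∃ σ : ℝ, 0 < σ ∧ ∃ D0 : ℝ,
    ∀ (S : Sys (m + 1)) (N : ℕ) [NeZero N] (lam : ℕ), D0 ≤ S.D → IG S c N x0 lam →
    ∀ δ : ℝ, S.D ^ (-σ) ≤ δ → δ ≤ 1 / 2 → (lam : ℝ) ≤ δ⁻¹ →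
    ∀ (p : ℕ) [NeZero p], p.Prime → N = S.Q * p → ∀ q : ℕ, 1 ≤ q → (q : ℝ) ≤ δ⁻¹ →
    ∀ X : ℝ, 1 ≤ X → S.D ^ (s - σ) ≤ X →
    ∀ (f0 : ZMod N → ℂ) (f : Fin m → ZMod N → ℂ), Adm δ⁻¹ S.Q f0 → (∀ i, Adm δ⁻¹ S.Q (f i)) →
    ∀ G : ZMod p → ℂ, Adm δ⁻¹ X (fun z => G ((q : ZMod p) * z)) →
    δ ≤ ‖form S c 1 f0 (Fin.snoc (α := fun _ => ZMod N → ℂ) f (blk S.Q G))‖ →
    ∀ L : ℕ, 1 ≤ L → (L : ℝ) * (S.Q * q) ≤ S.P (Fin.last m) * S.D ^ (-ε) →
      δ ^ C ≤ nrm (A L (fun z : ZMod p => G ((q : ZMod p) * z))) := by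
  intro ε hε
  obtain ⟨x', hx', C1, σ1, hσ1, D1, H1⟩ := hT (ε / 2) (by positivity)
  have hc0 : ∀ i, 0 < c i := fun i => by have := hc.two i; linarith
  obtain ⟨xr, hxr⟩ : ∃ xr, xr = min x' 1 := ⟨_, rfl⟩
  have hxr0 : 0 < xr := by rw [hxr]; positivity
  have hxr1 : xr ≤ x' := by rw [hxr]; exact min_le_left _ _
  have hxr2 : xr ≤ 1 := by rw [hxr]; exact min_le_right _ _
  obtain ⟨x2, hx2, σ2, hσ2, D2, H2⟩ := IG.dil c hc0 xr hxr0
  have hds : 0 < (d - s) / 4 := by linarith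
  obtain ⟨K1, hK1⟩ : ∃ K1 : ℝ, K1 = 2 * (4 * C1 + 1) := ⟨_, rfl⟩
  have hK10 : 0 < K1 := by rw [hK1]; positivity
  obtain ⟨Z, hZ⟩ : ∃ Z, Z = min (min (min (σ1 / 8) σ2) (min (xr / 64) (ε / K1)))
    (min (1 / 8) ((d - s) / 4)) := ⟨_, rfl⟩
  have hZ0 : 0 < Z := by rw [hZ]; positivity
  have hZ1 : Z ≤ σ1 / 8 := by
    rw [hZ]; exact (min_le_left _ _).trans ((min_le_left _ _).trans (min_le_left _ _))
  have hZ2 : Z ≤ σ2 := by
    rw [hZ]; exact (min_le_left _ _).trans ((min_le_left _ _).trans (min_le_right _ _))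
  have hZ3 : Z ≤ xr / 64 := by
    rw [hZ]; exact (min_le_left _ _).trans ((min_le_right _ _).trans (min_le_left _ _))
  have hZ4 : Z ≤ ε / K1 := by
    rw [hZ]; exact (min_le_left _ _).trans ((min_le_right _ _).trans (min_le_right _ _))
  have hZ5 : Z ≤ 1 / 8 := by
    rw [hZ]; exact (min_le_right _ _).trans (min_le_left _ _)
  have hZ6 : Z ≤ (d - s) / 4 := by
    rw [hZ]; exact (min_le_right _ _).trans (min_le_right _ _)
  obtain ⟨K2, hK2⟩ : ∃ K2 : ℝ, K2 = 16 * (d * 3 ^ (d - 1)) + 8 := ⟨_, rfl⟩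
  have hev : ∀ᶠ D : ℝ in Filter.atTop, 16 ≤ D ∧ D2 ≤ D ∧ D1 ≤ D ^ (1 / 2 : ℝ) ∧
      4 ≤ D ^ (3 / 8 : ℝ) ∧ K2 ≤ D ^ (xr / 8) ∧ 2 ≤ D ^ (σ1 / 2) ∧ 4 ^ (d : ℝ) + 2 ≤ D ^ (ε / 2) := by
    refine (Filter.eventually_ge_atTop _).and ((Filter.eventually_ge_atTop _).and
      (((tendsto_rpow_atTop (by positivity)).eventually_ge_atTop _).and
      (((tendsto_rpow_atTop (by positivity)).eventually_ge_atTop _).and
      (((tendsto_rpow_atTop (by positivity)).eventually_ge_atTop _).and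
      (((tendsto_rpow_atTop (by positivity)).eventually_ge_atTop _).and
      ((tendsto_rpow_atTop (by positivity)).eventually_ge_atTop _))))))
  obtain ⟨D0, hD0⟩ := Filter.eventually_atTop.1 hev
  refine ⟨min x2 Z, by positivity, 4 * C1 + 2, Z, hZ0, D0, ?_⟩
  intro S N _ lam hSD hG δ hδσ hδ2 hlam p _ hp hN q hq hqδ X hX1 hX2 f0 f hf0 hf G hGadm hform
    L hL hLP
  obtain ⟨hD16, hDD2, hDD1, hD4, hDK2, hDσ1, hDε⟩ := hD0 S.D hSD
  set D := S.D with hDdef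
  have hDpos : 0 < D := by linarith
  have hD1 : 1 ≤ D := by linarith
  have hδ0 : 0 < δ := lt_of_lt_of_le (Real.rpow_pos_of_pos hDpos _) hδσ
  have hδi : δ⁻¹ ≤ D ^ Z := by
    rw [inv_le_comm₀ hδ0 (by positivity), ← Real.rpow_neg hDpos.le]
    exact hδσ
  have hδi2 : 2 ≤ δ⁻¹ := by
    rw [le_inv_comm₀ (by norm_num) hδ0]
    linarith
  have rp : ∀ a b : ℝ, D ^ a * D ^ b = D ^ (a + b) := fun a b => (Real.rpow_add hDpos a b).symm
  have hmono : ∀ {a b : ℝ}, a ≤ b → D ^ a ≤ D ^ b := fun h => Real.rpow_le_rpow_of_exponent_le hD1 h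
  have hD8 : 8 ≤ D ^ (xr / 8) := by
    refine le_trans ?_ hDK2
    rw [hK2]
    have : (0 : ℝ) ≤ 16 * (d * 3 ^ (d - 1)) := by positivity
    linarith
  have hx0Z : min x2 Z ≤ Z := min_le_right _ _
  have hGd := hG.good
  have hQ1 : 1 ≤ S.Q := by
    have h1 : (1 : ℝ) ≤ S.Q := le_trans (Real.one_le_rpow hD1 (by norm_num)) hGd.Q1
    exact_mod_cast h1
  have hQr : (0 : ℝ) < S.Q := by exact_mod_cast hQ1
  have hN0 : 0 < N := Nat.pos_of_ne_zero (NeZero.ne N)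
  have hNr : (0 : ℝ) < N := by exact_mod_cast hN0
  have hp0 : 0 < p := hp.pos
  have hpr : (0 : ℝ) < p := by exact_mod_cast hp0
  have hqr : (1 : ℝ) ≤ q := by exact_mod_cast hq
  have hqZ : (q : ℝ) ≤ D ^ Z := hqδ.trans hδi
  have hlam1 : 1 ≤ lam := hG.lam1
  have hlamr : (1 : ℝ) ≤ lam := by exact_mod_cast hlam1
  -- the exponent `d`
  obtain ⟨d', rfl⟩ : ∃ d', d = d' + 1 := by
    have h2 := hc.two (Fin.last m)
    rw [hd] at h2
    have h3 : 2 ≤ d := by exact_mod_cast h2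
    exact ⟨d - 1, by omega⟩
  -- size of `p`
  have hP : S.P (Fin.last m) = S.Q * (lam * D) ^ (d' + 1) := hG.Pint _ _ hd
  have hpD : (lam * D) ^ (d' + 1) ≤ p * D ^ Z := by
    have h1 := hGd.N1 (Fin.last m)
    rw [hP, hN] at h1
    have h2 : (((S.Q * p : ℕ) : ℕ) : ℝ) * D ^ (min x2 Z) ≤ S.Q * (p * D ^ Z) := by
      push_cast
      rw [mul_assoc]
      exact mul_le_mul_of_nonneg_left (mul_le_mul_of_nonneg_left
        (Real.rpow_le_rpow_of_exponent_le hD1 hx0Z) hpr.le) hQr.le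
    exact le_of_mul_le_mul_left (h1.trans h2) hQr
  -- the window
  obtain ⟨J, hJ⟩ : ∃ J : ℕ, J = ⌈D ^ (1 - xr / 4)⌉₊ := ⟨_, rfl⟩
  have hJ1 : D ^ (1 - xr / 4) ≤ J := by rw [hJ]; exact Nat.le_ceil _
  have h1J : 1 ≤ D ^ (1 - xr / 4) := Real.one_le_rpow hD1 (by linarith)
  have hJ0 : 1 ≤ J := by exact_mod_cast h1J.trans hJ1
  have hJ2 : (J : ℝ) ≤ 2 * D ^ (1 - xr / 4) := by
    have h1 : (J : ℝ) < D ^ (1 - xr / 4) + 1 := by rw [hJ]; exact Nat.ceil_lt_add_one (by linarith)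
    linarith
  have hqJ : 4 * (q : ℝ) * J ≤ δ * S.T := by
    have hT := hGd.T1
    have h1 : D ^ (1 - Z) ≤ S.T :=
      (Real.rpow_le_rpow_of_exponent_le hD1 (by linarith)).trans hT
    have h2 : D ^ (-Z) * D ^ (1 - Z) ≤ δ * S.T :=
      mul_le_mul hδσ h1 (by positivity) hδ0.le
    refine le_trans ?_ h2
    calc 4 * (q : ℝ) * J ≤ 4 * D ^ Z * (2 * D ^ (1 - xr / 4)) := by gcongr
      _ = 8 * D ^ (Z + (1 - xr / 4)) := by rw [← rp]; ring
      _ ≤ D ^ (xr / 8) * D ^ (Z + (1 - xr / 4)) := by gcongr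
      _ = D ^ (xr / 8 + (Z + (1 - xr / 4))) := rp _ _
      _ ≤ D ^ (-Z + (1 - Z)) := hmono (by linarith)
      _ = D ^ (-Z) * D ^ (1 - Z) := (rp _ _).symm
  obtain ⟨g, hg⟩ : ∃ g : ℕ → ℂ, g = fun k => 𝔼 x : ZMod N, f0 x *
      ∏ i, (Fin.snoc (α := fun _ => ZMod N → ℂ) f (blk S.Q G)) i
        (x + (S.a c i k : ZMod N)) := ⟨_, rfl⟩
  -- `q` is invertible modulo `p`
  have hsZ : D ^ (Z + s) < p := by
    have h1 : D ^ ((d' + 1 : ℕ) : ℝ) ≤ p * D ^ Z := by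
      rw [Real.rpow_natCast]
      exact le_trans (pow_le_pow_left₀ hDpos.le (le_mul_of_one_le_left hDpos.le hlamr) _) hpD
    have h2 : D ^ (((d' + 1 : ℕ) : ℝ) - Z) ≤ p := by
      rw [Real.rpow_sub hDpos, div_le_iff₀ (by positivity)]
      exact h1
    exact lt_of_lt_of_le (Real.rpow_lt_rpow_of_exponent_lt (by linarith) (by linarith)) h2
  have hqp : q < p := by
    have h1 : (q : ℝ) < p := lt_of_le_of_lt (hqZ.trans (hmono (by linarith))) hsZ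
    exact_mod_cast h1
  obtain ⟨qi, hqi⟩ : ∃ qi : ZMod p, (q : ZMod p) * qi = 1 :=
    ⟨(q : ZMod p)⁻¹, ZMod.coe_mul_inv_eq_one q (Nat.coprime_of_lt_prime (by omega) hqp hp).symm⟩
  have hG1 : ∀ z, ‖G z‖ ≤ 1 := by
    intro z
    have h1 : ‖G ((q : ZMod p) * (qi * z))‖ ≤ 1 := hGadm.bdd (qi * z)
    rwa [← mul_assoc, hqi, one_mul] at h1
  have hsnoc : ∀ (h : ZMod N → ℂ), (∀ x, ‖h x‖ ≤ 1) → ∀ i x,
      ‖(Fin.snoc (α := fun _ => ZMod N → ℂ) f h : Fin (m + 1) → ZMod N → ℂ) i x‖ ≤ 1 := by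
    intro h hh i x
    refine Fin.lastCases ?_ (fun i => ?_) i
    · rw [Fin.snoc_last]; exact hh x
    · rw [Fin.snoc_castSucc]; exact (hf i).bdd x
  have hg1 : ∀ k, ‖g k‖ ≤ 1 := by
    intro k
    rw [hg]
    refine norm_expect_le_of5 _ _ (by norm_num) fun x _ => ?_
    rw [norm_mul, norm_prod]
    refine mul_le_one₀ (hf0.bdd x) (prod_nonneg fun _ _ => norm_nonneg _) ?_
    exact prod_le_one (fun _ _ => norm_nonneg _) fun i _ => hsnoc _ (fun x => hG1 _) i _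
  have hgform : δ ≤ ‖𝔼 k ∈ S.I, g k‖ := by
    refine hform.trans (le_of_eq ?_)
    unfold form
    simp only [Pi.one_apply, one_mul, hg]
  obtain ⟨r0, u', hr0, hu1, hu2, hwin⟩ := exists_window S δ q J hq hJ0 hqJ g hg1 hgform hδ0
  -- size of the window
  have hSu2 : q * (u' + J) + r0 ≤ 2 * D := by
    have h1 : (((q * (u' + J) + r0 : ℕ) : ℕ) : ℝ) ≤ S.u + S.T := by exact_mod_cast hu2
    push_cast at h1
    have h2 := hGd.u2
    linarith
  have hqJD : 2 * (q : ℝ) * J ≤ D := by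
    have h1 := hGd.u1
    have h2 := hGd.u2
    have h3 : (0 : ℝ) ≤ S.T := Nat.cast_nonneg _
    have h4 : δ * S.T ≤ 1 / 2 * S.T := mul_le_mul_of_nonneg_right hδ2 h3
    linarith
  have hJu : J < u' := by
    by_contra hcon
    rw [not_lt] at hcon
    have h1 : S.u < q * (u' + 1) := by rw [Nat.mul_add]; omega
    have h2 : q * (u' + 1) ≤ q * (2 * J) := Nat.mul_le_mul_left _ (by omega)
    have h3 : (S.u : ℝ) < ((q * (2 * J) : ℕ) : ℝ) := by exact_mod_cast h1.trans_le h2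
    have h4 := hGd.u1
    push_cast at h3
    linarith
  have hGx2 : IG S c N x2 lam := hG.mono (min_le_left _ _) hD1
  obtain ⟨hIG', hD'1, hD'2, hP'⟩ := H2 S N lam hDD2 hGx2 q r0 u' J hq
    (hqZ.trans (hmono hZ2)) hr0 hu1 hu2 hJu.le ((hmono (by linarith)).trans hJ1)
  have hρ0 := hGd.ρ0
  have hρ1 := hGd.ρ1
  have hdil : ∀ (i : Fin (m + 1)) (k : ℕ), (dil S c q r0 u' J).a c i k = S.a c i (q * k + r0) :=
    fun i k => dil_a S c q r0 u' J k hq (by omega) hDpos hρ0 i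
  obtain ⟨r, hr⟩ := hG.rho
  -- the values at the top
  obtain ⟨v, hv⟩ : ∃ v : ℕ, v = lam * (q * u' + r0) + r := ⟨_, rfl⟩
  obtain ⟨Δ, hΔ⟩ : ∃ Δ : ℕ, Δ = (v + q * (lam * J)) ^ (d' + 1) - v ^ (d' + 1) := ⟨_, rfl⟩
  have hbig : ∀ j ∈ Ico u' (u' + J), ∃ Δk : ℕ, Δk ≤ Δ ∧ q ∣ Δk ∧
      S.a c (Fin.last m) (q * j + r0) = (S.Q : ℤ) * (v ^ (d' + 1) + Δk : ℕ) := by
    intro j hj
    rw [mem_Ico] at hj
    obtain ⟨w, hw⟩ : ∃ w, j = u' + w := ⟨j - u', by omega⟩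
    have e1 : lam * (q * j + r0) + r = v + q * (lam * w) := by
      rw [hw, hv]
      ring
    have e2 : v ^ (d' + 1) ≤ (v + q * (lam * w)) ^ (d' + 1) := Nat.pow_le_pow_left (by omega) _
    refine ⟨(v + q * (lam * w)) ^ (d' + 1) - v ^ (d' + 1), ?_, ?_, ?_⟩
    · rw [hΔ]
      refine Nat.sub_le_sub_right (Nat.pow_le_pow_left ?_ _) _
      have : q * (lam * w) ≤ q * (lam * J) :=
        Nat.mul_le_mul_left _ (Nat.mul_le_mul_left _ (by omega))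
      omega
    · have e3 := Nat.sub_dvd_pow_sub_pow (v + q * (lam * w)) v (d' + 1)
      rw [Nat.add_sub_cancel_left] at e3
      exact (Dvd.intro _ rfl).trans e3
    · rw [a_nat hG hDpos hr (Fin.last m) (d' + 1) hd, e1, Nat.add_sub_cancel' e2]
      push_cast
      ring
  have hsplit := form_split52 S c hQ1 hq hN r0 u' J hJ0 hdil f0 f hf0.bdd (fun i => (hf i).bdd) G hG1
    (v ^ (d' + 1)) Δ hbig
  -- size of `Δ`
  have hΔp : 2 * ((Δ : ℝ) / p) ≤ δ / 4 := by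
    have e1 : v ^ (d' + 1) ≤ (v + q * (lam * J)) ^ (d' + 1) := Nat.pow_le_pow_left (by omega) _
    have e2 : (Δ : ℝ) = ((v : ℝ) + q * (lam * J)) ^ (d' + 1) - (v : ℝ) ^ (d' + 1) := by
      rw [hΔ, Nat.cast_sub e1]
      push_cast
      ring
    have e3 := pow_sub_le52 ((v : ℝ) + q * (lam * J)) v (Nat.cast_nonneg _)
      (le_add_of_nonneg_right (by positivity)) d'
    rw [← e2, add_sub_cancel_left] at e3
    have e4 : (v : ℝ) + q * (lam * J) ≤ 3 * (lam * D) := by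
      have f1 : (v : ℝ) + q * (lam * J) = lam * (q * (u' + J) + r0) + S.ρ * lam := by
        rw [hr, hv]
        push_cast
        ring
      have f2 : (lam : ℝ) * (q * (u' + J) + r0) ≤ lam * (2 * D) :=
        mul_le_mul_of_nonneg_left hSu2 (by linarith)
      have f3 : S.ρ * lam ≤ 1 * lam := mul_le_mul_of_nonneg_right hρ1 (by linarith)
      have f4 : (lam : ℝ) * 1 ≤ lam * D := mul_le_mul_of_nonneg_left hD1 (by linarith)
      rw [f1]
      linarith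
    have e5 : ((v : ℝ) + q * (lam * J)) ^ d' ≤ (3 * (lam * D)) ^ d' :=
      pow_le_pow_left₀ (by positivity) e4 _
    have e6 : (Δ : ℝ) * D ≤ (d' + 1) * 3 ^ d' * (p * D ^ Z) * (q * J) := by
      calc (Δ : ℝ) * D ≤ ((d' + 1) * ((v : ℝ) + q * (lam * J)) ^ d' * (q * (lam * J))) * D := by
            gcongr
        _ ≤ ((d' + 1) * (3 * (lam * D)) ^ d' * (q * (lam * J))) * D := by gcongr
        _ = (d' + 1) * 3 ^ d' * ((lam * D) ^ (d' + 1)) * (q * J) := by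
            rw [mul_pow 3]
            ring
        _ ≤ _ := by gcongr
    have e7 : (q : ℝ) * J ≤ 2 * D ^ (Z + (1 - xr / 4)) := by
      calc (q : ℝ) * J ≤ D ^ Z * (2 * D ^ (1 - xr / 4)) := by gcongr
        _ = 2 * D ^ (Z + (1 - xr / 4)) := by rw [← rp]; ring
    have e8 : (16 * ((d' + 1) * 3 ^ d') : ℝ) ≤ D ^ (xr / 8) := by
      have f1 := hDK2
      rw [hK2, Nat.add_sub_cancel] at f1
      push_cast at f1
      linarith
    have e9 : (Δ : ℝ) * D ≤ (p * (δ / 8)) * D := by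
      calc (Δ : ℝ) * D ≤ (d' + 1) * 3 ^ d' * (p * D ^ Z) * (q * J) := e6
        _ ≤ (d' + 1) * 3 ^ d' * (p * D ^ Z) * (2 * D ^ (Z + (1 - xr / 4))) := by gcongr
        _ = (16 * ((d' + 1) * 3 ^ d')) * (p * D ^ Z) * (1 / 8 * D ^ (Z + (1 - xr / 4))) := by ring
        _ ≤ D ^ (xr / 8) * (p * D ^ Z) * (1 / 8 * D ^ (Z + (1 - xr / 4))) := by gcongr
        _ = p * (1 / 8) * (D ^ (xr / 8) * D ^ Z * D ^ (Z + (1 - xr / 4))) := by ring
        _ = p * (1 / 8) * D ^ (xr / 8 + Z + (Z + (1 - xr / 4))) := by rw [rp, rp]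
        _ ≤ p * (1 / 8) * D ^ (-Z + 1) := by
            have : D ^ (xr / 8 + Z + (Z + (1 - xr / 4))) ≤ D ^ (-Z + 1) := hmono (by linarith)
            gcongr
        _ = p * (D ^ (-Z) / 8) * D := by rw [← rp, Real.rpow_one]; ring
        _ ≤ (p * (δ / 8)) * D := by gcongr
    have e10 : (Δ : ℝ) ≤ p * (δ / 8) := le_of_mul_le_mul_right e9 hDpos
    have e11 : (Δ : ℝ) / p ≤ δ / 8 := by
      rw [div_le_iff₀ hpr]
      linarith
    linarith
  -- a class with a large form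
  have hδδ : δ ^ 2 ≤ 1 / 4 := by
    calc δ ^ 2 = δ * δ := sq δ
      _ ≤ 1 / 2 * (1 / 2) := mul_le_mul hδ2 hδ2 hδ0.le (by norm_num)
      _ = 1 / 4 := by norm_num
  obtain ⟨b, hbq, hb⟩ : ∃ b ∈ range q, δ ^ 4 ≤
      ‖form (dil S c q r0 u' J) c 1 (fun x => f0 x * ind52 S.Q q b x)
        (Fin.snoc (α := fun _ => ZMod N → ℂ) f (T52 S.Q q (v ^ (d' + 1)) b G))‖ := by
    by_contra hcon
    push Not at hcon
    have h1 : ∑ b ∈ range q, ‖form (dil S c q r0 u' J) c 1 (fun x => f0 x * ind52 S.Q q b x)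
        (Fin.snoc (α := fun _ => ZMod N → ℂ) f (T52 S.Q q (v ^ (d' + 1)) b G))‖ <
        ∑ _b ∈ range q, δ ^ 4 :=
      sum_lt_sum_of_nonempty (nonempty_range_iff.2 (by omega)) hcon
    rw [sum_const, card_range, nsmul_eq_mul] at h1
    have h2 : (q : ℝ) * δ ^ 4 ≤ δ⁻¹ * δ ^ 4 := by gcongr
    have h3 : δ⁻¹ * δ ^ 4 = δ * δ ^ 2 := by field_simp
    have h4 : δ * δ ^ 2 ≤ δ * (1 / 4) := by gcongr
    have h5 := hsplit
    rw [hg] at hwin
    linarith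
  -- the dilated system
  set S' := dil S c q r0 u' J with hS'
  obtain ⟨Y, hY⟩ : ∃ Y : ℕ, Y = ⌊max 1 (D ^ (s - Z))⌋₊ := ⟨_, rfl⟩
  have hYle : (Y : ℝ) ≤ max 1 (D ^ (s - Z)) := by
    rw [hY]; exact Nat.floor_le (by positivity)
  have hY1 : 1 ≤ Y := by
    rw [hY]; exact Nat.le_floor (by simp)
  have hYr : (1 : ℝ) ≤ Y := by exact_mod_cast hY1
  have hYge : max 1 (D ^ (s - Z)) ≤ 2 * Y := by
    have h1 : max 1 (D ^ (s - Z)) < Y + 1 := by rw [hY]; exact Nat.lt_floor_add_one _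
    linarith
  have hYX : (Y : ℝ) ≤ X := hYle.trans (max_le hX1 hX2)
  have hYs : (Y : ℝ) ≤ D ^ s := by
    refine hYle.trans (max_le (Real.one_le_rpow hD1 hs0.le) (hmono (by linarith)))
  have hMY : S.Q * q * Y ≤ N := by
    have h1 : (q : ℝ) * Y ≤ p := by
      calc (q : ℝ) * Y ≤ D ^ Z * D ^ s := by gcongr
        _ = D ^ (Z + s) := rp _ _
        _ ≤ p := hsZ.le
    have h2 : q * Y ≤ p := by exact_mod_cast h1
    rw [hN, mul_assoc]
    exact Nat.mul_le_mul_left _ h2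
  have hQN : S.Q ≤ N := by rw [hN]; exact Nat.le_mul_of_pos_right _ hp0
  have hM1 : 1 ≤ S.Q * q := Nat.mul_pos hQ1 hq
  obtain ⟨β, hβ⟩ : ∃ β : ZMod p, β = qi * ((b + v ^ (d' + 1) : ℕ) : ZMod p) := ⟨_, rfl⟩
  have hTG : ∀ y : ZMod N, T52 S.Q q (v ^ (d' + 1)) b G y =
      G ((q : ZMod p) * ((((y + (-((S.Q * v ^ (d' + 1) : ℕ) : ZMod N))).val / (S.Q * q) : ℕ) :
        ZMod p) + β)) := by
    intro y
    unfold T52
    congr 1
    rw [hβ, mul_add, ← mul_assoc, hqi, one_mul, ← sub_eq_add_neg]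
    push_cast
    ring
  have hadmT0 := adm_dil52 (N := N) hGadm (S.Q * q) Y hM1 hY1 hYX hMY β
  have hadmT : Adm (6 * δ⁻¹ + 2) ((S.Q * q * Y : ℕ) : ℝ) (T52 (N := N) S.Q q (v ^ (d' + 1)) b G) := by
    have h1 := hadmT0.shift (-((S.Q * v ^ (d' + 1) : ℕ) : ZMod N))
    have h2 : T52 (N := N) S.Q q (v ^ (d' + 1)) b G = fun y => G ((q : ZMod p) *
        ((((y + (-((S.Q * v ^ (d' + 1) : ℕ) : ZMod N))).val / (S.Q * q) : ℕ) : ZMod p) + β)) :=
      funext hTG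
    rw [h2]
    exact h1
  have hi4 : δ⁻¹ ^ 4 = (δ ^ 4)⁻¹ := inv_pow δ 4
  have hi4' : 8 * δ⁻¹ ≤ (δ ^ 4)⁻¹ := by
    rw [← hi4]
    have h1 : (2 : ℝ) ^ 3 ≤ δ⁻¹ ^ 3 := pow_le_pow_left₀ (by norm_num) hδi2 _
    have h2 : δ⁻¹ ^ 4 = δ⁻¹ ^ 3 * δ⁻¹ := by ring
    rw [h2]
    have h3 : (0 : ℝ) < δ⁻¹ := inv_pos.2 hδ0
    norm_num at h1
    exact mul_le_mul_of_nonneg_right (by rw [inv_pow]; exact h1) h3.le
  have hB1 : 6 * δ⁻¹ + 2 ≤ (δ ^ 4)⁻¹ := by linarith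
  have hB2 : δ⁻¹ + 4 ≤ (δ ^ 4)⁻¹ := by linarith
  have hB3 : δ⁻¹ ≤ (δ ^ 4)⁻¹ := by linarith
  have hQY : (S.Q : ℝ) ≤ ((S.Q * q * Y : ℕ) : ℝ) := by
    push_cast
    have : (S.Q : ℝ) * 1 * 1 ≤ S.Q * q * Y := by gcongr
    linarith
  have hD'half : D ^ (1 / 2 : ℝ) ≤ S'.D := by
    refine le_trans ?_ hD'1
    rw [le_div_iff₀ (by positivity)]
    calc D ^ (1 / 2 : ℝ) * (4 * q) ≤ D ^ (1 / 2 : ℝ) * (D ^ (3 / 8 : ℝ) * D ^ Z) := by gcongr
      _ = D ^ (1 / 2 + (3 / 8 + Z)) := by rw [rp, rp]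
      _ ≤ D ^ (1 : ℝ) := hmono (by linarith)
      _ = D := Real.rpow_one _
  have hD'le : S'.D ≤ D := hD'2.trans (div_le_self hDpos.le hqr)
  have hD'1' : 1 ≤ S'.D := (Real.one_le_rpow hD1 (by norm_num)).trans hD'half
  have hD'pos : 0 < S'.D := by linarith
  have hS'Q : S'.Q = S.Q := rfl
  have hML1 : 1 ≤ S.Q * q * L := Nat.mul_pos hM1 hL
  have hfin := H1 S' N (lam * q) (hDD1.trans hD'half) (hIG'.mono hxr1 hD'1') (δ ^ 4)
    (by
      calc S'.D ^ (-σ1) ≤ (D ^ (1 / 2 : ℝ)) ^ (-σ1) :=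
            Real.rpow_le_rpow_of_nonpos (by positivity) hD'half (by linarith)
        _ = D ^ (1 / 2 * (-σ1)) := (Real.rpow_mul hDpos.le _ _).symm
        _ ≤ D ^ (-Z * (4 : ℕ)) := hmono (by push_cast; linarith)
        _ = (D ^ (-Z)) ^ 4 := by rw [Real.rpow_mul hDpos.le, Real.rpow_natCast]
        _ ≤ δ ^ 4 := pow_le_pow_left₀ (by positivity) hδσ _)
    ((pow_le_of_le_one hδ0.le (hδ2.trans (by norm_num)) (by norm_num)).trans hδ2)
    (by
      push_cast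
      calc (lam : ℝ) * q ≤ δ⁻¹ * δ⁻¹ := by gcongr
        _ ≤ (δ ^ 4)⁻¹ := by
          rw [← hi4]
          have : δ⁻¹ ^ 2 ≤ δ⁻¹ ^ 4 := pow_le_pow_right₀ (by linarith) (by norm_num)
          linarith [sq (δ⁻¹)])
    ((S.Q * q * Y : ℕ) : ℝ) hQY
    (by
      rw [hS'Q]
      push_cast
      rw [mul_assoc]
      refine mul_le_mul_of_nonneg_left ?_ hQr.le
      rcases le_total s σ1 with hsσ | hsσ
      · have h1 : S'.D ^ (s - σ1) ≤ 1 := Real.rpow_le_one_of_one_le_of_nonpos hD'1' (by linarith)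
        exact h1.trans (one_le_mul_of_one_le_of_one_le hqr hYr)
      · have h1 : S'.D ^ (s - σ1) ≤ D ^ (s - σ1) :=
          Real.rpow_le_rpow hD'pos.le hD'le (by linarith)
        have h2 : D ^ (s - σ1) * 2 ≤ D ^ (s - Z) := by
          calc D ^ (s - σ1) * 2 ≤ D ^ (s - σ1) * D ^ (σ1 / 2) := by gcongr
            _ = D ^ (s - σ1 + σ1 / 2) := rp _ _
            _ ≤ D ^ (s - Z) := hmono (by linarith)
        have h3 : D ^ (s - Z) ≤ 2 * Y := (le_max_right _ _).trans hYge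
        have h4 : (Y : ℝ) ≤ q * Y := le_mul_of_one_le_left (Nat.cast_nonneg _) hqr
        linarith only [h1, h2, h3, h4])
    (fun x => f0 x * ind52 S.Q q b x)
    (Fin.snoc (α := fun _ => ZMod N → ℂ) f (T52 S.Q q (v ^ (d' + 1)) b G))
    ((hf0.mul (adm_ind52 hQ1 hQN q b)).mono hB2 hQr le_rfl)
    (by
      intro i
      refine Fin.lastCases ?_ (fun i => ?_) i
      · rw [Fin.snoc_last]
        exact hadmT.mono hB1 hQr hQY
      · rw [Fin.snoc_castSucc]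
        exact (hf i).mono hB3 hQr le_rfl)
    (by
      rw [Fin.snoc_last]
      exact hadmT.mono hB1 (by positivity) le_rfl)
    hb (S.Q * q * L) hML1
    (by
      have h1 := (hP' (Fin.last m)).1
      have h2 : S.P (Fin.last m) * 4 ^ (-c (Fin.last m)) * D ^ (-(ε / 2)) ≤
          S'.P (Fin.last m) * S'.D ^ (-(ε / 2)) := by
        refine mul_le_mul h1 (Real.rpow_le_rpow_of_nonpos hD'pos hD'le (by linarith)) (by positivity)
          (le_trans ?_ h1)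
        rw [hP]; positivity
      refine le_trans ?_ h2
      have h3 : ((S.Q * q * L : ℕ) : ℝ) = (L : ℝ) * (S.Q * q) := by push_cast; ring
      rw [h3]
      refine hLP.trans ?_
      rw [hd, mul_assoc]
      refine mul_le_mul_of_nonneg_left ?_ (by rw [hP]; positivity)
      have h4 : (4 : ℝ) ^ (((d' + 1 : ℕ) : ℝ)) ≤ D ^ (ε / 2) := by linarith
      have h5 : D ^ (-ε) * 4 ^ (((d' + 1 : ℕ) : ℝ)) ≤ D ^ (-(ε / 2)) := by
        calc D ^ (-ε) * 4 ^ (((d' + 1 : ℕ) : ℝ)) ≤ D ^ (-ε) * D ^ (ε / 2) := by gcongr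
          _ = D ^ (-ε + ε / 2) := rp _ _
          _ = D ^ (-(ε / 2)) := by rw [show -ε + ε / 2 = -(ε / 2) by ring]
      rw [Real.rpow_neg (show (0 : ℝ) ≤ 4 by norm_num), inv_mul_eq_div,
        le_div_iff₀ (Real.rpow_pos_of_pos (by norm_num) _)]
      exact h5)
  rw [Fin.snoc_last] at hfin
  -- transport to `ZMod p`
  have htr : nrm (A (S.Q * q * L) (T52 (N := N) S.Q q (v ^ (d' + 1)) b G)) ≤
      q * nrm (A L (fun z : ZMod p => G ((q : ZMod p) * z))) + (S.Q * q : ℝ) * L / N := by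
    have h1 := nrm_Aq_mul 1 (S.Q * q) L hM1 (T52 (N := N) S.Q q (v ^ (d' + 1)) b G)
    rw [Aq_one, one_mul] at h1
    refine h1.trans ?_
    have h2 := nrm_dil52 (N := N) hQ1 hq hN (fun z : ZMod p => G ((q : ZMod p) * z))
      (fun z => hG1 _) β L
    refine le_trans (le_of_eq ?_) h2
    unfold nrm
    rw [← expect_shift (fun x => ‖Aq (S.Q * q) L (T52 (N := N) S.Q q (v ^ (d' + 1)) b G) x‖)
      ((S.Q * v ^ (d' + 1) : ℕ) : ZMod N)]
    refine expect_congr rfl fun x _ => ?_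
    congr 1
    unfold Aq
    refine expect_congr rfl fun l _ => ?_
    rw [hTG]
    have h3 : x + ((S.Q * v ^ (d' + 1) : ℕ) : ZMod N) + ((S.Q * q * l : ℕ) : ZMod N) +
        -((S.Q * v ^ (d' + 1) : ℕ) : ZMod N) = x + ((S.Q * q * l : ℕ) : ZMod N) := by ring
    rw [h3]
  have hsm : (S.Q * q : ℝ) * L / N * 2 ≤ δ ^ (4 * C1) := by
    have h1 : (S.Q * q : ℝ) * L ≤ N * D ^ (Z - ε) := by
      have e1 := hGd.N1 (Fin.last m)
      calc (S.Q * q : ℝ) * L = (L : ℝ) * (S.Q * q) := by ring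
        _ ≤ S.P (Fin.last m) * D ^ (-ε) := hLP
        _ ≤ (N * D ^ (min x2 Z)) * D ^ (-ε) := by gcongr
        _ = N * D ^ (min x2 Z + -ε) := by rw [mul_assoc, rp]
        _ ≤ N * D ^ (Z - ε) := mul_le_mul_of_nonneg_left (hmono (by linarith)) hNr.le
    have h2 : (S.Q * q : ℝ) * L / N ≤ D ^ (Z - ε) := by
      rw [div_le_iff₀ hNr]
      linarith
    have h3 : K1 * Z ≤ ε := by
      rw [le_div_iff₀ hK10] at hZ4
      linarith
    rw [hK1] at h3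
    calc (S.Q * q : ℝ) * L / N * 2 ≤ D ^ (Z - ε) * D ^ (ε / 2) := by
          have h4 : (2 : ℝ) ≤ D ^ (ε / 2) := by
            have : (0 : ℝ) ≤ 4 ^ (((d' + 1 : ℕ) : ℝ)) := by positivity
            linarith
          gcongr
      _ = D ^ (Z - ε + ε / 2) := rp _ _
      _ ≤ D ^ (-Z * ((4 * C1 : ℕ) : ℝ)) := hmono (by push_cast; linarith)
      _ = (D ^ (-Z)) ^ (4 * C1) := by rw [Real.rpow_mul hDpos.le, Real.rpow_natCast]
      _ ≤ δ ^ (4 * C1) := pow_le_pow_left₀ (by positivity) hδσ _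
  obtain ⟨n, hn⟩ : ∃ n : ℝ, n = nrm (A L (fun z : ZMod p => G ((q : ZMod p) * z))) := ⟨_, rfl⟩
  rw [← hn] at htr ⊢
  have hqn : δ ^ (4 * C1) / 2 ≤ q * n := by
    rw [← pow_mul] at hfin
    linarith
  have hδC : δ ^ (4 * C1 + 2) * q ≤ δ ^ (4 * C1) / 2 := by
    calc δ ^ (4 * C1 + 2) * q ≤ δ ^ (4 * C1 + 2) * δ⁻¹ := by gcongr
      _ = δ ^ (4 * C1) * δ := by
        rw [pow_add]
        field_simp
      _ ≤ δ ^ (4 * C1) * (1 / 2) := by gcongr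
      _ = δ ^ (4 * C1) / 2 := by ring
  have hq0 : (0 : ℝ) < q := by linarith
  refine le_of_mul_le_mul_left ?_ hq0
  linarith

end

end Pool.Agent.Helper67.NX2
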